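import Pool.Agent.Lib.H91W.D3
import Pool.Agent.Lib.H82K.C19

/-!
# The least counterexample and an abstract machine

The stationary set of ordinals which are not captured, for every machine with condensation.
-/

set_option autoImplicit false

open Set Ordinal

namespace Pool.Agent.Lib.H91X

open Pool.Agent.Lib.H45Osc (w1 isOmega1_W limitPts isClub_limitPts IsClosedCopy)
open Pool.Agent.Lib.H91W

theorem ns_of_nc {g : Iio w1 → Ordinal.{0}} {β : Ordinal.{0}} (h : NC g β) :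
    Pool.Agent.H82K.NS g β :=
  ⟨h.mono, h.lt, h.cof, fun i hi x hx => by
    obtain ⟨v, hv, hxv⟩ := h.cont i hi x hx
    exact ⟨v, hv, hxv.le⟩⟩

theorem nc_of_ns {g : Iio w1 → Ordinal.{0}} {β : Ordinal.{0}} (h : Pool.Agent.H82K.NS g β) :
    NC g β :=
  ⟨h.mono, h.lt, h.cof, fun i hi x hx => by
    obtain ⟨v, hv, hxv⟩ := h.cont i hi x hx
    obtain ⟨-, h2⟩ := id hi
    obtain ⟨v', hv', hv''⟩ := h2 v hv
    exact ⟨v', hv'', hxv.trans_lt (h.mono hv')⟩⟩

variable (M : Pool.Agent.H82K.Ops)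

open Classical in
/-- Descend along `ainf` as long as the ordinal is in `C`. -/
noncomputable def hc (C : Set Ordinal.{0}) : Ordinal.{0} → Ordinal.{0} :=
  (wellFounded_lt (α := Ordinal.{0})).fix fun β ih =>
    if h : β ∈ C ∧ M.ainf β < β then ih (M.ainf β) h.2 else β

theorem hc_of_mem {C : Set Ordinal.{0}} {β : Ordinal.{0}} (h : β ∈ C) (h' : M.ainf β < β) :
    hc M C β = hc M C (M.ainf β) := by
  unfold hc
  rw [WellFounded.fix_eq, dif_pos ⟨h, h'⟩]

theorem hc_of_notMem {C : Set Ordinal.{0}} {β : Ordinal.{0}} (h : β ∉ C) : hc M C β = β := by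
  unfold hc
  rw [WellFounded.fix_eq, dif_neg fun h1 => h h1.1]

variable {M}

/-- The case of a closed unbounded set of captured ordinals. -/
theorem pn_club' (hM : M.Good) {μ : Ordinal.{0}} (hμ : ∀ g, ¬ NC g μ) {C : Set Ordinal.{0}}
    (hC : IsClubIn μ C) (hW : ∀ δ < μ, PN δ)
    (hS : ∀ β ∈ C, β < μ → (∃ g, NC g β) → w1 < β ∧ M.Captured β) : PN μ := by
  classical
  let nx : Ordinal.{0} → Ordinal.{0} := fun x => sInf {y | y ∈ C ∧ x < y}
  have hnx : ∀ x < μ, nx x ∈ C ∧ x < nx x ∧ nx x < μ := by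
    intro x hx
    obtain ⟨y, hy, hxy, hyμ⟩ := hC.unb x hx
    have h1 : nx x ∈ {y | y ∈ C ∧ x < y} := csInf_mem ⟨y, hy, hxy⟩
    exact ⟨h1.1, h1.2, (csInf_le' (show y ∈ {y | y ∈ C ∧ x < y} from ⟨hy, hxy⟩)).trans_lt hyμ⟩
  choose H hH hH' using hW
  let K : Ordinal.{0} → Ordinal.{0} → Ordinal.{0} → Ordinal.{0} := fun δ α β =>
    if h : δ < μ then H δ h α β else 0
  have hK : ∀ δ α β, K δ α β < w1 := by
    intro δ α β
    simp only [K]
    split_ifs with h
    · exact hH _ _ _ _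
    · exact zero_lt_w1
  let h : Ordinal.{0} → Ordinal.{0} := hc M C
  -- the main claim
  have key : ∀ β ≤ μ, ∀ g, NC g β → ∃ δ < μ, ∃ γ ≤ δ, ∃ c, NC c γ ∧ ∃ E, IsClub E ∧
      ∀ i ∈ E, h (g i) = c i ∧ nx (c i) = δ := by
    intro β
    induction β using WellFoundedLT.induction with
    | ind β ih =>
      intro hβ g hg
      have hβμ : β < μ := lt_of_le_of_ne hβ fun h => hμ g (h ▸ hg)
      by_cases hlim : ∀ x < β, ∃ y ∈ C, x < y ∧ y < β
      · have hβC : β ∈ C := hC.closed β hβμ hg.cb.pos.ne' hlim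
        obtain ⟨hwβ, hcap⟩ := hS β hβC hβμ ⟨g, hg⟩
        obtain ⟨γ, hγ, c, hc', E1, hE1, hE1'⟩ := M.descent hM hwβ (ns_of_nc hg) hcap
        have hc := nc_of_ns hc'
        obtain ⟨δ, hδ, γ', hγ', c', hc', E2, hE2, hE2'⟩ := ih γ hγ (hγ.le.trans hβ) c hc
        choose y hy hgy hyβ using fun i => hlim (g i) (hg.lt i)
        choose F hF using fun i => hg.cof (y i) (hyβ i)
        refine ⟨δ, hδ, γ', hγ', c', hc', ({i | ∀ v < i, F v < i} ∩ limitPts) ∩ (E1 ∩ E2),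
          club_inter (club_inter (club_closed F) isClub_limitPts) (club_inter hE1 hE2), ?_⟩
        rintro i ⟨⟨hi, hi'⟩, hi1, hi2⟩
        have hgC : g i ∈ C := by
          refine hC.closed (g i) ((hg.lt i).trans hβμ) (hg.pos_of hi').1.ne' ?_
          intro x hx
          obtain ⟨v, hv, hxv⟩ := hg.cont i hi' x hx
          exact ⟨y v, hy v, hxv.trans (hgy v), (hF v).trans (hg.mono (hi v hv))⟩
        obtain ⟨-, h5, h6⟩ := hE1' i hi1
        have h7 : h (g i) = h (c i) := by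
          show H91X.hc M C (g i) = _
          rw [hc_of_mem M hgC (by rw [h5]; exact h6), h5]
        rw [h7]
        exact hE2' i hi2
      · push Not at hlim
        obtain ⟨b, hb, hb'⟩ := hlim
        obtain ⟨i0, hi0⟩ := hg.cof b hb
        have hb1 := hnx b (hb.trans hβμ)
        refine ⟨nx b, hb1.2.2, β, hb' _ hb1.1 hb1.2.1, g, hg, Ioi i0, club_tail i0, ?_⟩
        intro i hi
        have hbi : b < g i := hi0.trans (hg.mono hi)
        have h3 := hnx (g i) ((hg.lt i).trans hβμ)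
        refine ⟨hc_of_notMem M fun hn => ?_, ?_⟩
        · exact absurd (hb' _ hn hbi) (not_le.2 (hg.lt i))
        · apply le_antisymm
          · exact csInf_le' (show nx b ∈ {y | y ∈ C ∧ g i < y} from
              ⟨hb1.1, (hg.lt i).trans_le (hb' _ hb1.1 hb1.2.1)⟩)
          · exact csInf_le' (show nx (g i) ∈ {y | y ∈ C ∧ b < y} from ⟨h3.1, hbi.trans h3.2.1⟩)
  refine ⟨fun α β => K (nx (h α)) (h α) (h β), fun α β => hK _ _ _, ?_⟩
  intro β hβ g hg E hE ξ hξ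
  obtain ⟨δ, hδ, γ, hγ, c, hc, E1, hE1, hE1'⟩ := key β hβ g hg
  obtain ⟨i, ⟨hi, hi1⟩, j, ⟨hj, hj1⟩, hij, hξ'⟩ := hH' δ hδ γ hγ c hc (E ∩ E1)
    (club_inter hE hE1) ξ hξ
  refine ⟨i, hi, j, hj, hij, ?_⟩
  show K (nx (h (g i))) (h (g i)) (h (g j)) = ξ
  rw [(hE1' i hi1).1, (hE1' i hi1).2, (hE1' j hj1).1]
  simp only [K]
  rw [dif_pos hδ]
  exact hξ'

/-- The least counterexample: the ordinals of cofinality `ω₁` which are not captured by the machine
form a stationary set. -/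
theorem least_good (hM : M.Good) {κ : Cardinal.{0}} (h : ¬ Posed κ) (hm : ∀ l < κ, Posed l) :
    ∀ C, IsClubIn κ.ord C → ∃ β ∈ C, β < κ.ord ∧ w1 < β ∧ β.cof = Cardinal.aleph 1 ∧
      ¬ M.Captured β := by
  obtain ⟨δ, hδ, hmin⟩ := WellFounded.has_min (wellFounded_lt (α := Ordinal.{0})) {δ | ¬ PN δ}
    ⟨κ.ord, fun hn => h hn.posed⟩
  have hW : ∀ δ' < δ, PN δ' := fun δ' h => by
    by_contra hn
    exact hmin δ' hn h
  have hδκ : δ ≤ κ.ord := not_lt.1 (hmin κ.ord fun hn => h hn.posed)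
  rcases pn_step hW with h1 | ⟨μ, hμ, hμ1, rfl⟩
  · exact absurd h1 hδ
  have hμκ : μ = κ := by
    refine le_antisymm (Cardinal.ord_le_ord.1 hδκ) ?_
    by_contra hn
    rw [not_le] at hn
    exact hδ (hm μ hn).pn
  subst hμκ
  intro C hC
  have hw : w1 < μ.ord := Cardinal.ord_lt_ord.2 hμ1
  have hC' : IsClubIn μ.ord (C ∩ Ioi w1) := by
    constructor
    · intro x hx
      obtain ⟨y, hy, hxy, hyμ⟩ := hC.unb (max x w1) (max_lt hx hw)
      exact ⟨y, ⟨hy, (le_max_right _ _).trans_lt hxy⟩, (le_max_left _ _).trans_lt hxy, hyμ⟩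
    · intro δ hδ hδ0 h
      refine ⟨hC.closed δ hδ hδ0 fun x hx => ?_, ?_⟩
      · obtain ⟨y, hy, h1, h2⟩ := h x hx
        exact ⟨y, hy.1, h1, h2⟩
      · obtain ⟨y, hy, -, h2⟩ := h 0 (pos_iff_ne_zero.2 hδ0)
        exact (show w1 < y from hy.2).trans h2
  by_contra hn
  push Not at hn
  refine hδ (pn_club' hM ?_ hC' hW ?_)
  · intro g hg
    have h1 := hg.cof_eq
    rw [hμ.cof_ord] at h1
    exact absurd h1 hμ1.ne'
  · rintro β ⟨hβ, hβw⟩ hβμ ⟨g, hg⟩
    exact ⟨hβw, hn β hβ hβμ hβw hg.cof_eq⟩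

end Pool.Agent.Lib.H91X
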