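import Pool.Agent.Lib.H91X.P1
import Pool.Agent.Lib.H82K.K11

/-!
# The least counterexample and the inner models of ZFC with a given set of countable ordinals
-/

set_option autoImplicit false

open Set Ordinal

namespace Pool.Agent.Lib.H91X

open Pool.Agent.Lib.H45Osc (w1 isOmega1_W limitPts isClub_limitPts IsClosedCopy)
open Pool.Agent.Lib.H91W
open Pool.Agent.H82K (Inner KK mach good_mach good_K inner_of_good set_mem_K captured CofMap)

/-- For each set `B` of countable ordinals there is an inner model `N` of ZFC which contains `B` and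
has, below the least counterexample `κ`, stationary many ordinals of cofinality `ω₁` without a
cofinal map from a smaller ordinal in `N`. -/
theorem least_inner {κ : Cardinal.{0}} (h : ¬ Posed κ) (hm : ∀ l < κ, Posed l)
    (B : ZFSet.{0}) (hB : ∀ x ∈ B, x ∈ (w1 : Ordinal.{0}).toZFSet) :
    ∃ N : ZFSet.{0} → Prop, Inner N ∧ N B ∧ ∀ C, IsClubIn κ.ord C →
      ∃ β ∈ C, β < κ.ord ∧ w1 < β ∧ β.cof = Cardinal.aleph 1 ∧
        ∀ γ < β, ∀ f, N f → ¬ CofMap f γ β := by
  obtain ⟨A, hA⟩ : ∃ A : Set Ordinal.{0}, A = {ξ : Ordinal.{0} | ξ.toZFSet ∈ B} := ⟨_, rfl⟩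
  have hAw : ∀ x ∈ A, x < w1 := by
    intro x hx
    rw [hA] at hx
    exact Ordinal.toZFSet_mem_toZFSet_iff.1 (hB _ hx)
  have hKB : KK A B := by
    rw [hA]
    exact set_mem_K B hB
  refine ⟨KK A, inner_of_good (good_K A), hKB, fun C hC => ?_⟩
  obtain ⟨β, hβ, hβκ, hβw, hcof, hn⟩ := least_good (good_mach hAw) h hm C hC
  exact ⟨β, hβ, hβκ, hβw, hcof, fun γ hγ f hf hc => hn (captured hf hγ hc)⟩

end Pool.Agent.Lib.H91X
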